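import Pool.Agent.Q156.TL.L2

/-!
One polynomial.
-/

set_option autoImplicit false

namespace Pool.Agent.Q156.TL

open Finset Filter Topology Polynomial
open Pool.Agent.H373R2.T7 (pz mem_pz Vz Vz_pos Vz_le_one)
open Pool.Agent.TH204.WR (rt evt_log_ge evt_log_pow)
open Pool.Agent.Q156.SW

/-- the number of the `a ∈ S` with `|F(a) + b|` prime -/
noncomputable def cnt (F : ℤ[X]) (S : Finset ℤ) (b : ℤ) : ℕ :=
  (S.filter (fun a => (F.eval a + b).natAbs.Prime)).card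

/-- the translate of a set of integers -/
def tr (S : Finset ℤ) (u : ℤ) : Finset ℕ := S.image (fun a => (a - u).toNat)

lemma tr_inj (S : Finset ℤ) (u v : ℤ) (hS : S ⊆ Ioc u v) : Set.InjOn (fun a : ℤ => (a - u).toNat) S := by
  intro a ha b hb h
  have h1 := mem_Ioc.1 (hS (mem_coe.1 ha))
  have h2 := mem_Ioc.1 (hS (mem_coe.1 hb))
  simp only at h
  omega

lemma tr_card (S : Finset ℤ) (u v : ℤ) (hS : S ⊆ Ioc u v) : (tr S u).card = S.card :=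
  card_image_of_injOn (tr_inj S u v hS)

lemma tr_mem (S : Finset ℤ) (u v : ℤ) (hS : S ⊆ Ioc u v) (m : ℕ) (hm : m ∈ tr S u) : u + (m : ℤ) ∈ S := by
  obtain ⟨a, ha, rfl⟩ := mem_image.1 hm
  have h1 := mem_Ioc.1 (hS ha)
  have h2 : u + (((a - u).toNat : ℕ) : ℤ) = a := by omega
  rw [h2]
  exact ha

lemma tr_cnt (F : ℤ[X]) (S : Finset ℤ) (u v : ℤ) (hS : S ⊆ Ioc u v) (b : Fin 1 → ℤ) :
    cntS (fun _ : Fin 1 => F) (tr S u) (fun _ m => u + (m : ℤ)) b = cnt F S (b 0) := by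
  classical
  unfold cntS cnt
  symm
  apply card_bij (fun a _ => (a - u).toNat)
  · intro a ha
    obtain ⟨h1, h2⟩ := mem_filter.1 ha
    have h3 := mem_Ioc.1 (hS h1)
    refine mem_filter.2 ⟨mem_image_of_mem _ h1, fun j => ?_⟩
    have h4 : u + (((a - u).toNat : ℕ) : ℤ) = a := by omega
    beta_reduce
    rw [h4, Fin.fin_one_eq_zero j]
    exact h2
  · intro a ha a' ha' h
    exact tr_inj S u v hS (mem_coe.2 (mem_filter.1 ha).1) (mem_coe.2 (mem_filter.1 ha').1) h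
  · intro m hm
    obtain ⟨h1, h2⟩ := mem_filter.1 hm
    obtain ⟨a, ha, rfl⟩ := mem_image.1 h1
    have h3 := mem_Ioc.1 (hS ha)
    have h4 : u + (((a - u).toNat : ℕ) : ℤ) = a := by omega
    refine ⟨a, mem_filter.2 ⟨ha, ?_⟩, rfl⟩
    have h5 := h2 0
    beta_reduce at h5
    rw [h4] at h5
    exact h5

open Classical in
theorem one (k : ℕ) (hk : 1 ≤ k) (F : ℤ[X]) (hF : F.natDegree = k + 1) (ε : ℝ) (hε : 0 < ε) :
    ∃ A : ℕ, 1 ≤ A ∧ ∀ K : ℕ, ∃ X0 : ℕ, ∀ x : ℕ, X0 ≤ x →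
    ∀ (lam : ℝ) (z₁ : ℕ), 0 ≤ lam → A * (1 + lam) ≤ z₁ → (z₁ : ℝ) ≤ K * Real.log (Real.log x) →
    ∀ (S : Finset ℤ) (u v : ℤ), S ⊆ Ioc u v → rt k x ≤ #S * Real.log x ^ K →
      (v : ℝ) - u ≤ #S * Real.exp lam → (∀ q ∈ Ioc u v, 8 * |F.eval q| ≤ x) →
    ∀ (α : ℤ) (T : ℕ), (x : ℤ) ≤ 4 * α → 2 * α ≤ x → 4 * (T * prim z₁) ≤ x →
      (x : ℝ) ≤ T * prim z₁ * Real.log x ^ K →
      (∀ a ∈ S, ∀ p : ℕ, p.Prime → p ≤ z₁ → ¬ (p : ℤ) ∣ F.eval a + α) →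
      (((Icc 1 T).filter (fun t : ℕ =>
        ¬ |(cnt F S (α + prim z₁ * (t : ℤ)) : ℝ) - #S / (Vz z₁ * Real.log x)| ≤
          ε * (#S / (Vz z₁ * Real.log x)))).card : ℝ) ≤ ε * T := by
  obtain ⟨A, hA1, h⟩ := mainG 1 k hk (fun _ => F) (fun _ => hF) ε hε
  refine ⟨A, hA1, fun K => ?_⟩
  obtain ⟨X0, h⟩ := h K
  refine ⟨X0, fun x hx lam z₁ hlam0 hz₁A hz₁K S u v hS hxS hvl hFx α T hα1 hα2 hTx hxT hcop => ?_⟩
  have h1 := h x hx lam z₁ hlam0 hz₁A hz₁K (tr S u) (fun _ m => u + (m : ℤ)) (fun _ => u) (fun _ => v)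
    (fun _ a _ b _ hab => by
      have : u + (a : ℤ) = u + (b : ℤ) := hab
      omega)
    (fun _ m hm => hS (tr_mem S u v hS m hm)) (by rw [tr_card S u v hS]; exact hxS)
    (fun _ => by rw [tr_card S u v hS]; exact hvl) (fun _ => hFx) (fun _ => α) T (fun _ => ⟨hα1, hα2⟩) hTx hxT
    (fun _ m hm p hp hpz => hcop _ (tr_mem S u v hS m hm) p hp hpz)
  have hT1 : ε * (T : ℝ) ^ 1 = ε * T := by rw [pow_one]
  rw [← hT1]
  refine le_trans ?_ h1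
  have h2 : ((Icc 1 T).filter (fun t : ℕ =>
        ¬ |(cnt F S (α + prim z₁ * (t : ℤ)) : ℝ) - #S / (Vz z₁ * Real.log x)| ≤
          ε * (#S / (Vz z₁ * Real.log x)))).card ≤
      ((Fintype.piFinset (fun _ : Fin 1 => Icc 1 T)).filter (fun t =>
        ¬ |(cntS (fun _ : Fin 1 => F) (tr S u) (fun _ m => u + (m : ℤ)) (fun j => α + prim z₁ * (t j : ℤ)) : ℝ) -
          #(tr S u) / (Vz z₁ * Real.log x) ^ 1| ≤
          ε * (#(tr S u) / (Vz z₁ * Real.log x) ^ 1))).card := by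
    apply card_le_card_of_injOn (fun t _ => t)
    · intro t ht
      obtain ⟨h3, h4⟩ := mem_filter.1 (mem_coe.1 ht)
      refine mem_coe.2 (mem_filter.2 ⟨Fintype.mem_piFinset.2 fun _ => h3, ?_⟩)
      rw [tr_cnt F S u v hS, tr_card S u v hS, pow_one]
      exact h4
    · intro t _ t' _ h
      exact congrFun h 0
  exact_mod_cast h2

end Pool.Agent.Q156.TL
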