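import Pool.Agent.Q156.SW.S6
import Pool.Agent.Erdos456.Mertens

/-!
Sums over the primes between `y` and `z`.
-/

set_option autoImplicit false

namespace Pool.Agent.Q156.TL

open Finset
open Pool.Agent.Q156.SW

lemma sum_log (C : ℝ) (hC : ∀ N : ℕ, 1 ≤ N → |∑ p ∈ (Icc 1 N).filter Nat.Prime, Real.log p / p - Real.log N| ≤ C)
    (y z : ℕ) (hy : 1 ≤ y) (hyz : y ≤ z) : |∑ p ∈ pq y z, Real.log p / p - (Real.log z - Real.log y)| ≤ 2 * C := by
  have h1 : ∑ p ∈ pq y z, Real.log p / p = ∑ p ∈ (Icc 1 z).filter Nat.Prime, Real.log p / p -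
      ∑ p ∈ (Icc 1 y).filter Nat.Prime, Real.log p / p := by
    rw [eq_sub_iff_add_eq]
    have h2 : (Icc 1 z).filter Nat.Prime = pq y z ∪ (Icc 1 y).filter Nat.Prime := by
      ext p
      rw [mem_union, mem_pq, mem_filter, mem_filter, mem_Icc, mem_Icc]
      constructor
      · rintro ⟨⟨a, b⟩, c⟩
        rcases le_or_gt p y with h | h
        · exact Or.inr ⟨⟨a, h⟩, c⟩
        · exact Or.inl ⟨h, b, c⟩
      · rintro (⟨a, b, c⟩ | ⟨⟨a, b⟩, c⟩)
        · exact ⟨⟨c.one_lt.le, b⟩, c⟩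
        · exact ⟨⟨a, b.trans hyz⟩, c⟩
    have h3 : Disjoint (pq y z) ((Icc 1 y).filter Nat.Prime) := by
      rw [disjoint_left]
      intro p h4 h5
      have h6 := (mem_pq.1 h4).1
      have h7 := (mem_Icc.1 (mem_filter.1 h5).1).2
      omega
    rw [h2, sum_union h3]
  rw [h1]
  have h2 := abs_le.1 (hC z (by omega))
  have h3 := abs_le.1 (hC y hy)
  rw [abs_le]
  constructor <;> linarith [h2.1, h2.2, h3.1, h3.2]

theorem sum_inv : ∃ C : ℝ, 0 ≤ C ∧ ∀ y z : ℕ, 2 ≤ y → y ≤ z →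
    (∑ p ∈ pq y z, 1 / (p : ℝ)) * Real.log y ≤ Real.log z - Real.log y + C ∧
    Real.log z - Real.log y - C ≤ (∑ p ∈ pq y z, 1 / (p : ℝ)) * Real.log z := by
  obtain ⟨C, hC⟩ := Pool.Agent.Erdos456.Mert.mertens_log
  have hC0 : 0 ≤ C := (abs_nonneg _).trans (hC 1 le_rfl)
  refine ⟨2 * C, by linarith, fun y z hy hyz => ?_⟩
  have h1 := abs_le.1 (sum_log C hC y z (by omega) hyz)
  have hyr : (2 : ℝ) ≤ y := by exact_mod_cast hy
  constructor
  · rw [sum_mul]
    have h2 : ∑ p ∈ pq y z, 1 / (p : ℝ) * Real.log y ≤ ∑ p ∈ pq y z, Real.log p / p := by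
      apply sum_le_sum
      intro p hp
      obtain ⟨h3, _, h5⟩ := mem_pq.1 hp
      have h6 : (y : ℝ) ≤ p := by exact_mod_cast h3.le
      have h7 : Real.log y ≤ Real.log p := Real.log_le_log (by linarith) h6
      rw [one_div, inv_mul_eq_div]
      exact div_le_div_of_nonneg_right h7 (Nat.cast_nonneg _)
    linarith [h1.2]
  · rw [sum_mul]
    have h2 : ∑ p ∈ pq y z, Real.log p / p ≤ ∑ p ∈ pq y z, 1 / (p : ℝ) * Real.log z := by
      apply sum_le_sum
      intro p hp
      obtain ⟨_, h4, h5⟩ := mem_pq.1 hp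
      have h6 : (p : ℝ) ≤ z := by exact_mod_cast h4
      have h7 : Real.log p ≤ Real.log z := Real.log_le_log (by exact_mod_cast h5.pos) h6
      rw [one_div, inv_mul_eq_div]
      exact div_le_div_of_nonneg_right h7 (Nat.cast_nonneg _)
    linarith [h1.1]

/-- the density factor between two levels -/
lemma V1_bounds (y z : ℕ) : V1 y z ≤ Real.exp (-(∑ p ∈ pq y z, 1 / (p : ℝ))) ∧
    Real.exp (-(2 * ∑ p ∈ pq y z, 1 / (p : ℝ))) ≤ V1 y z := by
  unfold V1
  constructor
  · rw [← sum_neg_distrib, Real.exp_sum]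
    apply Finset.prod_le_prod
    · intro p hp
      exact (one_sub_inv_pos (mem_pq.1 hp).2.2.two_le).1.le
    · intro p _
      have := Real.add_one_le_exp (-(1 / (p : ℝ)))
      linarith
  · rw [mul_sum, ← sum_neg_distrib, Real.exp_sum]
    apply Finset.prod_le_prod
    · intro p _
      exact (Real.exp_pos _).le
    · intro p hp
      have h1 : (2 : ℝ) ≤ p := by exact_mod_cast (mem_pq.1 hp).2.2.two_le
      obtain ⟨w, hw⟩ : ∃ w : ℝ, w = 1 / p := ⟨_, rfl⟩
      have hw0 : 0 ≤ w := by rw [hw]; positivity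
      have hw2 : w ≤ 1 / 2 := by
        rw [hw]
        exact one_div_le_one_div_of_le (by norm_num) h1
      rw [← hw]
      have h2 : (1 - w)⁻¹ ≤ Real.exp (2 * w) := by
        have h3 : (1 - w)⁻¹ ≤ 1 + 2 * w := by
          rw [inv_le_comm₀ (by linarith) (by linarith), inv_le_iff_one_le_mul₀ (by linarith)]
          nlinarith
        have := Real.add_one_le_exp (2 * w)
        linarith
      rw [Real.exp_neg, inv_le_comm₀ (Real.exp_pos _) (by linarith)]
      exact h2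

end Pool.Agent.Q156.TL
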