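import Pool.Agent.Q156.TL.L3
import Pool.Agent.Q156.TL.L4

/-!
Refinement of the classes.
-/

set_option autoImplicit false

namespace Pool.Agent.Q156.TL

open Finset Filter Topology Polynomial
open Pool.Agent.H373R2.T7 (pz mem_pz Vz Vz_pos Vz_le_one)
open Pool.Agent.TH204.WR (rt evt_log_ge evt_log_pow)
open Pool.Agent.Q156.SW

/-- the product of the primes between two levels -/
def quo (y z : ℕ) : ℕ := ∏ p ∈ pq y z, p

lemma quo_pos (y z : ℕ) : 0 < quo y z := prod_pos fun p hp => (mem_pq.1 hp).2.2.pos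

lemma prim_quo (y z : ℕ) (h : y ≤ z) : prim z = prim y * quo y z := by
  unfold prim quo
  have h2 : (Icc 1 z).filter Nat.Prime = (Icc 1 y).filter Nat.Prime ∪ pq y z := by
    ext p
    rw [mem_union, mem_pq, mem_filter, mem_filter, mem_Icc, mem_Icc]
    constructor
    · rintro ⟨⟨a, b⟩, c⟩
      rcases le_or_gt p y with h | h
      · exact Or.inl ⟨⟨a, h⟩, c⟩
      · exact Or.inr ⟨h, b, c⟩
    · rintro (⟨⟨a, b⟩, c⟩ | ⟨a, b, c⟩)
      · exact ⟨⟨a, b.trans h⟩, c⟩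
      · exact ⟨⟨c.one_lt.le, b⟩, c⟩
  have h3 : Disjoint ((Icc 1 y).filter Nat.Prime) (pq y z) := by
    rw [disjoint_left]
    intro p h5 h4
    have h6 := (mem_pq.1 h4).1
    have h7 := (mem_Icc.1 (mem_filter.1 h5).1).2
    omega
  rw [h2, prod_union h3]

lemma sum_mod (p m : ℕ) (f : ℕ → ℝ) (hf : ∀ n, f (n + p) = f n) :
    ∑ n ∈ range (p * m), f n = m * ∑ n ∈ range p, f n := by
  have hper : ∀ k n, f (p * k + n) = f n := by
    intro k
    induction k with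
    | zero => intro n; rw [mul_zero, zero_add]
    | succ k ih =>
      intro n
      have : p * (k + 1) + n = (p * k + n) + p := by ring
      rw [this, hf, ih]
  induction m with
  | zero => simp
  | succ m ih =>
    have : p * (m + 1) = p * m + p := by ring
    rw [this, sum_range_add, ih, sum_congr rfl fun n _ => hper m n]
    push_cast
    ring

/-- the number of the classes with a given prime divisor -/
lemma count_class (Q p : ℕ) (hp : p.Prime) (hpQ : p ∣ Q) (P c : ℤ) (hP : ¬ (p : ℤ) ∣ P)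
    [DecidablePred fun n : ℕ => (p : ℤ) ∣ c + P * n] :
    (((range Q).filter (fun n : ℕ => (p : ℤ) ∣ c + P * n)).card : ℝ) = Q * (1 / (p : ℝ)) := by
  classical
  obtain ⟨m, rfl⟩ := hpQ
  have h1 := sum_mod p m (fun n : ℕ => if (p : ℤ) ∣ c + P * n then 1 else 0) (fun n => by
    have : (p : ℤ) ∣ c + P * ((n + p : ℕ) : ℤ) ↔ (p : ℤ) ∣ c + P * n := by
      push_cast
      have e : c + P * ((n : ℤ) + p) = (c + P * n) + p * P := by ring
      rw [e]
      exact dvd_add_left (dvd_mul_right _ _)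
    simp only [this])
  have h2 := card_one p hp P c hP
  have h3 : ∑ n ∈ range p, (if (p : ℤ) ∣ c + P * n then (1 : ℝ) else 0) = 1 := by
    rw [← sum_filter, sum_const, nsmul_eq_mul, mul_one]
    have h4 : ((range p).filter (fun n : ℕ => (p : ℤ) ∣ c + P * n)).card = 1 := by
      rw [← h2]
    rw [h4, Nat.cast_one]
  rw [h3, mul_one, ← sum_filter, sum_const, nsmul_eq_mul, mul_one] at h1
  have hp0 : (p : ℝ) ≠ 0 := by exact_mod_cast hp.ne_zero
  have h5 : (((range (p * m)).filter (fun n : ℕ => (p : ℤ) ∣ c + P * n)).card : ℝ) = m := by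
    rw [← h1]
  rw [h5]
  push_cast
  field_simp

/-- the elements of `S` without an obstruction between the two levels -/
noncomputable def fil (F : ℤ[X]) (S : Finset ℤ) (y z : ℕ) (α : ℤ) : Finset ℤ :=
  S.filter (fun a => ∀ p ∈ pq y z, ¬ (p : ℤ) ∣ F.eval a + α)

/-- few classes with many obstructions -/
lemma few_classes (F : ℤ[X]) (S : Finset ℤ) (y z : ℕ) (c P : ℤ) (hP : ∀ p : ℕ, p.Prime → y < p → ¬ (p : ℤ) ∣ P)
    (e : ℝ) (he : 0 < e) (hσ : ∑ p ∈ pq y z, 1 / (p : ℝ) ≤ e ^ 2) (hS : 0 < #S)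
    [DecidablePred fun ρ : ℕ => ¬ (1 - e) * (#S : ℝ) ≤ #(fil F S y z (c - P * ρ))] :
    (((range (quo y z)).filter (fun ρ : ℕ => ¬ (1 - e) * (#S : ℝ) ≤ #(fil F S y z (c - P * ρ)))).card : ℝ) ≤
      e * quo y z := by
  classical
  obtain ⟨Q, hQ⟩ : ∃ Q, Q = quo y z := ⟨_, rfl⟩
  rw [← hQ]
  have hpQ : ∀ p ∈ pq y z, p ∣ Q := fun p hp => by rw [hQ]; exact dvd_prod_of_mem _ hp
  -- the number of the obstructed elements
  have h1 : ∀ ρ : ℕ, (#S : ℝ) - #(fil F S y z (c - P * ρ)) ≤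
      ∑ a ∈ S, ∑ p ∈ pq y z, (if (p : ℤ) ∣ F.eval a + (c - P * ρ) then (1 : ℝ) else 0) := by
    intro ρ
    have e1 : (#S : ℝ) - #(fil F S y z (c - P * ρ)) =
        ∑ a ∈ S, (if ∀ p ∈ pq y z, ¬ (p : ℤ) ∣ F.eval a + (c - P * ρ) then (0 : ℝ) else 1) := by
      have e2 : ∑ a ∈ S, (if ∀ p ∈ pq y z, ¬ (p : ℤ) ∣ F.eval a + (c - P * ρ) then (0 : ℝ) else 1) =
          ∑ a ∈ S, (1 - if ∀ p ∈ pq y z, ¬ (p : ℤ) ∣ F.eval a + (c - P * ρ) then (1 : ℝ) else 0) := by
        apply sum_congr rfl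
        intro a _
        split_ifs <;> norm_num
      rw [e2, sum_sub_distrib, sum_const, nsmul_eq_mul, mul_one, ← sum_filter, sum_const, nsmul_eq_mul, mul_one]
      rfl
    rw [e1]
    apply sum_le_sum
    intro a _
    have h0 : ∀ p ∈ pq y z, (0 : ℝ) ≤ (if (p : ℤ) ∣ F.eval a + (c - P * ρ) then (1 : ℝ) else 0) := by
      intro p _
      split_ifs <;> norm_num
    split_ifs with h
    · exact sum_nonneg h0
    · push Not at h
      obtain ⟨p, hp, hd⟩ := h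
      have := single_le_sum h0 hp
      rwa [if_pos hd] at this
  -- the sum over the classes
  have h2 : ∑ ρ ∈ range Q, ∑ a ∈ S, ∑ p ∈ pq y z, (if (p : ℤ) ∣ F.eval a + (c - P * ρ) then (1 : ℝ) else 0) ≤
      #S * (Q * e ^ 2) := by
    have e1 : ∀ a ∈ S, ∀ p ∈ pq y z, ∑ ρ ∈ range Q, (if (p : ℤ) ∣ F.eval a + (c - P * ρ) then (1 : ℝ) else 0) =
        Q * (1 / (p : ℝ)) := by
      intro a _ p hp
      obtain ⟨hp1, _, hp3⟩ := mem_pq.1 hp
      have e2 := count_class Q p hp3 (hpQ p hp) (-P) (F.eval a + c) (by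
        rw [Int.dvd_neg]
        exact hP p hp3 hp1)
      rw [← e2, ← sum_filter, sum_const, nsmul_eq_mul, mul_one]
      congr 2
      apply filter_congr
      intro ρ _
      have e3 : F.eval a + (c - P * ρ) = F.eval a + c + -P * ρ := by ring
      rw [e3]
    calc ∑ ρ ∈ range Q, ∑ a ∈ S, ∑ p ∈ pq y z, (if (p : ℤ) ∣ F.eval a + (c - P * ρ) then (1 : ℝ) else 0)
        = ∑ a ∈ S, ∑ p ∈ pq y z, ∑ ρ ∈ range Q, (if (p : ℤ) ∣ F.eval a + (c - P * ρ) then (1 : ℝ) else 0) := by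
          rw [sum_comm]
          apply sum_congr rfl
          intro a _
          rw [sum_comm]
      _ = ∑ a ∈ S, ∑ p ∈ pq y z, Q * (1 / (p : ℝ)) :=
          sum_congr rfl fun a ha => sum_congr rfl fun p hp => e1 a ha p hp
      _ = #S * (Q * ∑ p ∈ pq y z, 1 / (p : ℝ)) := by
          rw [sum_const, nsmul_eq_mul, ← mul_sum]
      _ ≤ #S * (Q * e ^ 2) := by
          apply mul_le_mul_of_nonneg_left _ (Nat.cast_nonneg _)
          exact mul_le_mul_of_nonneg_left hσ (Nat.cast_nonneg _)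
  obtain ⟨G, hG⟩ : ∃ G, G = (range Q).filter (fun ρ : ℕ => ¬ (1 - e) * (#S : ℝ) ≤ #(fil F S y z (c - P * ρ))) := ⟨_, rfl⟩
  rw [← hG]
  have hSr : (0 : ℝ) < #S := by exact_mod_cast hS
  have h3 : (#G : ℝ) * (e * #S) ≤ #S * (Q * e ^ 2) := by
    calc (#G : ℝ) * (e * #S) = ∑ _ρ ∈ G, e * (#S : ℝ) := by rw [sum_const, nsmul_eq_mul]
      _ ≤ ∑ ρ ∈ G, ∑ a ∈ S, ∑ p ∈ pq y z, (if (p : ℤ) ∣ F.eval a + (c - P * ρ) then (1 : ℝ) else 0) := by
          apply sum_le_sum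
          intro ρ hρ
          rw [hG] at hρ
          have h4 := (mem_filter.1 hρ).2
          push Not at h4
          have h5 := h1 ρ
          linarith
      _ ≤ ∑ ρ ∈ range Q, ∑ a ∈ S, ∑ p ∈ pq y z, (if (p : ℤ) ∣ F.eval a + (c - P * ρ) then (1 : ℝ) else 0) := by
          apply sum_le_sum_of_subset_of_nonneg
          · rw [hG]
            exact filter_subset _ _
          · intro ρ _ _
            apply sum_nonneg
            intro a _
            apply sum_nonneg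
            intro p _
            split_ifs <;> norm_num
      _ ≤ #S * (Q * e ^ 2) := h2
  have h4 : (#G : ℝ) * (e * #S) ≤ (e * Q) * (e * #S) := by
    refine h3.trans (le_of_eq ?_)
    ring
  exact le_of_mul_le_mul_right h4 (mul_pos he hSr)

/-- the elements with an obstruction give no prime -/
lemma cnt_fil (F : ℤ[X]) (S : Finset ℤ) (y z : ℕ) (α P₁ : ℤ) (s : ℕ) (hP : ∀ p ∈ pq y z, (p : ℤ) ∣ P₁)
    (hbig : ∀ a ∈ S, (z : ℤ) < F.eval a + (α + P₁ * s)) :
    cnt F S (α + P₁ * s) = cnt F (fil F S y z α) (α + P₁ * s) := by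
  unfold cnt
  congr 1
  ext a
  rw [mem_filter, mem_filter]
  constructor
  · rintro ⟨h1, h2⟩
    refine ⟨mem_filter.2 ⟨h1, fun p hp hd => ?_⟩, h2⟩
    obtain ⟨_, hp2, hp3⟩ := mem_pq.1 hp
    have h3 : (p : ℤ) ∣ F.eval a + (α + P₁ * s) := by
      have e : F.eval a + (α + P₁ * s) = (F.eval a + α) + P₁ * s := by ring
      rw [e]
      exact dvd_add hd ((hP p hp).mul_right _)
    have h4 : p ∣ (F.eval a + (α + P₁ * s)).natAbs := Int.natCast_dvd.1 h3
    have h5 := (Nat.prime_dvd_prime_iff_eq hp3 h2).1 h4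
    have h6 := hbig a h1
    omega
  · rintro ⟨h1, h2⟩
    exact ⟨(mem_filter.1 h1).1, h2⟩

lemma fin_aux (N n m D V1v e ε : ℝ) (hn : 0 ≤ n) (hD : 0 < D) (he0 : 0 < e) (he : e ≤ 1 / 20) (heε : 5 * e ≤ ε)
    (hm1 : (1 - e) * n ≤ m) (hm2 : m ≤ n) (hV1 : 1 - 2 * e ≤ V1v) (hV2 : V1v ≤ 1)
    (h : |N - m / (D * V1v)| ≤ e * (m / (D * V1v))) : |N - n / D| ≤ ε * (n / D) := by
  obtain ⟨h1, h2⟩ := abs_le.1 h
  have hV0 : 0 < V1v := by linarith
  have hnD : 0 ≤ n / D := by positivity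
  have a1 : m / (D * V1v) ≤ (1 + 3 * e) * (n / D) := by
    rw [div_le_iff₀ (mul_pos hD hV0)]
    have b1 : (1 + 3 * e) * (n / D) * (D * V1v) = ((1 + 3 * e) * V1v) * n := by field_simp
    rw [b1]
    have b2 : 1 ≤ (1 + 3 * e) * V1v := by
      have : (1 + 3 * e) * (1 - 2 * e) ≤ (1 + 3 * e) * V1v := mul_le_mul_of_nonneg_left hV1 (by linarith)
      nlinarith
    calc m ≤ 1 * n := by linarith
      _ ≤ ((1 + 3 * e) * V1v) * n := mul_le_mul_of_nonneg_right b2 hn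
  have a2 : (1 - e) * (n / D) ≤ m / (D * V1v) := by
    rw [le_div_iff₀ (mul_pos hD hV0)]
    have b1 : (1 - e) * (n / D) * (D * V1v) = V1v * ((1 - e) * n) := by field_simp
    rw [b1]
    have b2 : 0 ≤ (1 - e) * n := mul_nonneg (by linarith) hn
    calc V1v * ((1 - e) * n) ≤ 1 * ((1 - e) * n) := mul_le_mul_of_nonneg_right hV2 b2
      _ ≤ m := by linarith
  obtain ⟨q, hq⟩ : ∃ q, q = n / D := ⟨_, rfl⟩
  obtain ⟨M, hM⟩ : ∃ M, M = m / (D * V1v) := ⟨_, rfl⟩
  rw [← hq] at a1 a2 hnD ⊢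
  rw [← hM] at a1 a2 h1 h2
  have a3 : (1 + e) * M ≤ (1 + e) * ((1 + 3 * e) * q) := mul_le_mul_of_nonneg_left a1 (by linarith)
  have a4 : (1 - e) * ((1 - e) * q) ≤ (1 - e) * M := mul_le_mul_of_nonneg_left a2 (by linarith)
  have a5 : (1 + e) * ((1 + 3 * e) * q) ≤ (1 + 5 * e) * q := by
    rw [← mul_assoc]
    apply mul_le_mul_of_nonneg_right _ hnD
    nlinarith
  have a6 : (1 - 2 * e) * q ≤ (1 - e) * ((1 - e) * q) := by
    rw [← mul_assoc]
    apply mul_le_mul_of_nonneg_right _ hnD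
    nlinarith
  have a7 : 5 * e * q ≤ ε * q := mul_le_mul_of_nonneg_right heε hnD
  have a8 : 0 ≤ e * q := mul_nonneg he0.le hnD
  rw [abs_le]
  constructor <;> linarith

end Pool.Agent.Q156.TL
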