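import Pool.Agent.Q156.TL.L5

/-!
The asymptotic formula for all levels above the threshold.
-/

set_option autoImplicit false

namespace Pool.Agent.Q156.TL

open Finset Filter Topology Polynomial
open Pool.Agent.H373R2.T7 (pz mem_pz Vz Vz_pos Vz_le_one)
open Pool.Agent.TH204.WR (rt evt_log_ge evt_log_pow)
open Pool.Agent.Q156.SW

/-- the primes between `y` and a constant times `2 + lam` have a small sum of inverses -/
lemma sigma_small (A : ℕ) (e : ℝ) (he : 0 < e) (he1 : e ≤ 1) : ∃ (δ : ℝ) (Y : ℕ), 0 < δ ∧ δ ≤ 1 / 4 ∧ 2 ≤ Y ∧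
    ∀ (lam : ℝ) (y z : ℕ), 0 ≤ lam → Y ≤ y → lam ^ (1 - δ) ≤ y → y ≤ z → (z = y ∨ (z : ℝ) ≤ (A + 1) * (2 + lam)) →
      ∑ p ∈ pq y z, 1 / (p : ℝ) ≤ e := by
  obtain ⟨C, hC0, hC⟩ := sum_inv
  obtain ⟨δ, hδ⟩ : ∃ δ : ℝ, δ = e / 4 := ⟨_, rfl⟩
  obtain ⟨B, hB⟩ : ∃ B : ℝ, B = Real.log (A + 1) + Real.log 3 + C := ⟨_, rfl⟩
  have hA0 : (0 : ℝ) ≤ A := Nat.cast_nonneg _
  have hB0 : 0 ≤ B := by
    rw [hB]
    have := Real.log_nonneg (show (1 : ℝ) ≤ A + 1 by linarith)
    have := Real.log_nonneg (show (1 : ℝ) ≤ 3 by norm_num)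
    linarith
  refine ⟨δ, ⌈Real.exp (2 * B / e)⌉₊ + 2, by rw [hδ]; positivity, by rw [hδ]; linarith, by omega,
    fun lam y z hlam hy hly hyz hz => ?_⟩
  have hy2 : 2 ≤ y := by omega
  have hyr : (2 : ℝ) ≤ y := by exact_mod_cast hy2
  have hly0 : 0 < Real.log y := Real.log_pos (by linarith)
  have hlyB : 2 * B / e ≤ Real.log y := by
    rw [Real.le_log_iff_exp_le (by linarith)]
    have h1 : Real.exp (2 * B / e) ≤ ⌈Real.exp (2 * B / e)⌉₊ := Nat.le_ceil _
    have h2 : ((⌈Real.exp (2 * B / e)⌉₊ : ℕ) : ℝ) ≤ y := by exact_mod_cast (by omega : ⌈Real.exp (2 * B / e)⌉₊ ≤ y)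
    linarith
  rcases hz with rfl | hz
  · have : pq z z = ∅ := by
      unfold pq
      rw [Ioc_self, filter_empty]
    rw [this, sum_empty]
    exact he.le
  · have h1 := (hC y z hy2 hyz).1
    have hδ0 : 0 < 1 - δ := by rw [hδ]; linarith
    have hzpos : (0 : ℝ) < z := by
      have : (y : ℝ) ≤ z := by exact_mod_cast hyz
      linarith
    have h2 : Real.log z ≤ Real.log (A + 1) + Real.log (2 + lam) := by
      rw [← Real.log_mul (by linarith) (by linarith)]
      exact Real.log_le_log hzpos hz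
    have h3 : Real.log (2 + lam) ≤ Real.log 3 + Real.log y / (1 - δ) := by
      rcases le_or_gt lam 1 with h | h
      · have h4 : Real.log (2 + lam) ≤ Real.log 3 := Real.log_le_log (by linarith) (by linarith)
        have h5 : 0 ≤ Real.log y / (1 - δ) := by positivity
        linarith
      · have h4 : Real.log (2 + lam) ≤ Real.log (3 * lam) := Real.log_le_log (by linarith) (by linarith)
        rw [Real.log_mul (by norm_num) (by linarith)] at h4
        have h5 : (1 - δ) * Real.log lam ≤ Real.log y := by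
          rw [← Real.log_rpow (by linarith)]
          exact Real.log_le_log (Real.rpow_pos_of_pos (by linarith) _) hly
        have h6 : Real.log lam ≤ Real.log y / (1 - δ) := by
          rw [le_div_iff₀ hδ0]
          linarith
        linarith
    have h4 : Real.log y / (1 - δ) - Real.log y ≤ e / 2 * Real.log y := by
      have h5 : Real.log y / (1 - δ) - Real.log y = δ / (1 - δ) * Real.log y := by
        field_simp
        ring
      rw [h5]
      apply mul_le_mul_of_nonneg_right _ hly0.le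
      rw [div_le_iff₀ hδ0, hδ]
      nlinarith
    have h5 : B ≤ e / 2 * Real.log y := by
      rw [div_le_iff₀ he] at hlyB
      linarith
    have h6 : (∑ p ∈ pq y z, 1 / (p : ℝ)) * Real.log y ≤ e * Real.log y := by
      rw [hB] at h5
      linarith
    exact le_of_mul_le_mul_right h6 hly0

lemma exp_small (σ e : ℝ) (h : σ ≤ e) : 1 - 2 * e ≤ Real.exp (-(2 * σ)) := by
  have := Real.add_one_le_exp (-(2 * σ))
  linarith

open Classical in
/-- the count of the bad `t` from the counts in the refined classes -/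
lemma glue (T Q : ℕ) (hQ : 0 < Q) (hTQ : Q ≤ T) (e : ℝ) (he : 0 < e) (Bt : ℕ → Prop) (G : ℕ → Prop) (Bs : ℕ → ℕ → Prop)
    (hG : (((range Q).filter (fun ρ => ¬ G ρ)).card : ℝ) ≤ e * Q)
    (hB : ∀ ρ < Q, G ρ → (((Icc 1 ((T + Q - 1) / Q)).filter (fun s => Bs ρ s)).card : ℝ) ≤ e * ((T + Q - 1) / Q : ℕ))
    (h : ∀ t ∈ Icc 1 T, ∀ ρ < Q, ∀ s ∈ Icc 1 ((T + Q - 1) / Q), t + ρ = Q * s → Bt t → ¬ G ρ ∨ Bs ρ s) :
    (((Icc 1 T).filter Bt).card : ℝ) ≤ 4 * e * T := by
  obtain ⟨T₁, hT₁⟩ : ∃ T₁, T₁ = (T + Q - 1) / Q := ⟨_, rfl⟩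
  rw [← hT₁] at hB h
  have hT₁Q : T₁ * Q ≤ 2 * T := by
    have h1 : T₁ * Q ≤ T + Q - 1 := by rw [hT₁]; exact Nat.div_mul_le_self _ _
    omega
  have h1 : ((Icc 1 T).filter Bt).card ≤
      ((((range Q).filter (fun ρ => ¬ G ρ)) ×ˢ (Icc 1 T₁)).card) +
        (((range Q).filter G).sigma (fun ρ => (Icc 1 T₁).filter (fun s => Bs ρ s))).card := by
    rw [← card_disjSum]
    let f : ℕ → ℕ × ℕ := fun t => (Q * ((t + Q - 1) / Q) - t, (t + Q - 1) / Q)
    have hf : ∀ t ∈ Icc 1 T, (f t).1 < Q ∧ (f t).2 ∈ Icc 1 T₁ ∧ t + (f t).1 = Q * (f t).2 := by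
      intro t ht
      rw [mem_Icc] at ht
      have h2 : (t + Q - 1) / Q * Q ≤ t + Q - 1 := Nat.div_mul_le_self _ _
      have h3 : t + Q - 1 < ((t + Q - 1) / Q + 1) * Q := by
        have := Nat.lt_succ_iff.2 (le_refl ((t + Q - 1) / Q))
        exact (Nat.div_lt_iff_lt_mul hQ).1 (Nat.lt_succ_self _)
      have h4 : Q * ((t + Q - 1) / Q) = (t + Q - 1) / Q * Q := mul_comm _ _
      have h5 : t ≤ Q * ((t + Q - 1) / Q) := by
        rw [h4]
        have : ((t + Q - 1) / Q + 1) * Q = (t + Q - 1) / Q * Q + Q := by ring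
        omega
      refine ⟨?_, ?_, ?_⟩
      · show Q * ((t + Q - 1) / Q) - t < Q
        omega
      · rw [mem_Icc]
        refine ⟨?_, ?_⟩
        · show 1 ≤ (t + Q - 1) / Q
          rw [Nat.one_le_div_iff hQ]
          omega
        · show (t + Q - 1) / Q ≤ T₁
          rw [hT₁]
          exact Nat.div_le_div_right (by omega)
      · show t + (Q * ((t + Q - 1) / Q) - t) = Q * ((t + Q - 1) / Q)
        omega
    apply card_le_card_of_injOn (fun t => if G (f t).1 then Sum.inr ⟨(f t).1, (f t).2⟩ else Sum.inl (f t))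
    · intro t ht
      obtain ⟨h2, h3⟩ := mem_filter.1 (mem_coe.1 ht)
      obtain ⟨h4, h5, h6⟩ := hf t h2
      by_cases hg : G (f t).1
      · simp only [hg, if_true]
        rw [mem_coe, inr_mem_disjSum, mem_sigma]
        refine ⟨mem_filter.2 ⟨mem_range.2 h4, hg⟩, mem_filter.2 ⟨h5, ?_⟩⟩
        rcases h t h2 _ h4 _ h5 h6 h3 with h7 | h7
        · exact absurd hg h7
        · exact h7
      · simp only [hg, if_false]
        rw [mem_coe, inl_mem_disjSum, mem_product]
        exact ⟨mem_filter.2 ⟨mem_range.2 h4, hg⟩, h5⟩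
    · intro t ht t' ht' hE
      have h2 := (mem_filter.1 (mem_coe.1 ht)).1
      have h2' := (mem_filter.1 (mem_coe.1 ht')).1
      obtain ⟨_, _, h6⟩ := hf t h2
      obtain ⟨_, _, h6'⟩ := hf t' h2'
      have h7 : (f t).1 = (f t').1 ∧ (f t).2 = (f t').2 := by
        simp only at hE
        by_cases hg : G (f t).1
        · by_cases hg' : G (f t').1
          · rw [if_pos hg, if_pos hg'] at hE
            have h8 := Sum.inr_injective hE
            have h9 := Sigma.mk.inj_iff.1 h8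
            exact ⟨h9.1, eq_of_heq h9.2⟩
          · rw [if_pos hg, if_neg hg'] at hE
            exact absurd hE (by simp)
        · by_cases hg' : G (f t').1
          · rw [if_neg hg, if_pos hg'] at hE
            exact absurd hE (by simp)
          · rw [if_neg hg, if_neg hg'] at hE
            have h8 := Sum.inl_injective hE
            exact ⟨congrArg Prod.fst h8, congrArg Prod.snd h8⟩
      rw [h7.1, h7.2] at h6
      omega
  rw [card_product, card_sigma, Nat.card_Icc, Nat.add_sub_cancel] at h1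
  have h2 : (((Icc 1 T).filter Bt).card : ℝ) ≤ (((range Q).filter (fun ρ => ¬ G ρ)).card : ℝ) * T₁ +
      ∑ ρ ∈ (range Q).filter G, (((Icc 1 T₁).filter (fun s => Bs ρ s)).card : ℝ) := by exact_mod_cast h1
  have h3 : ∑ ρ ∈ (range Q).filter G, (((Icc 1 T₁).filter (fun s => Bs ρ s)).card : ℝ) ≤ Q * (e * T₁) := by
    calc ∑ ρ ∈ (range Q).filter G, (((Icc 1 T₁).filter (fun s => Bs ρ s)).card : ℝ)
        ≤ ∑ _ρ ∈ (range Q).filter G, e * (T₁ : ℝ) := by
          apply sum_le_sum
          intro ρ hρ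
          obtain ⟨h4, h5⟩ := mem_filter.1 hρ
          exact hB ρ (mem_range.1 h4) h5
      _ = (((range Q).filter G).card : ℝ) * (e * T₁) := by rw [sum_const, nsmul_eq_mul]
      _ ≤ Q * (e * T₁) := by
          apply mul_le_mul_of_nonneg_right _ (by positivity)
          have h4 : ((range Q).filter G).card ≤ Q := by
            refine (card_filter_le _ _).trans ?_
            rw [card_range]
          exact_mod_cast h4
  have h4 : (((range Q).filter (fun ρ => ¬ G ρ)).card : ℝ) * T₁ ≤ (e * Q) * T₁ :=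
    mul_le_mul_of_nonneg_right hG (Nat.cast_nonneg _)
  have h5 : (T₁ : ℝ) * Q ≤ 2 * T := by exact_mod_cast hT₁Q
  have h6 : e * ((T₁ : ℝ) * Q) ≤ e * (2 * T) := mul_le_mul_of_nonneg_left h5 he.le
  linarith

end Pool.Agent.Q156.TL
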