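import Pool.Agent.Q156.TL.L6

/-!
The asymptotic formula for all levels above the threshold.
-/

set_option autoImplicit false

namespace Pool.Agent.Q156.TL

open Finset Filter Topology Polynomial
open Pool.Agent.H373R2.T7 (pz mem_pz Vz Vz_pos Vz_le_one)
open Pool.Agent.TH204.WR (rt evt_log_ge evt_log_pow)
open Pool.Agent.Q156.SW

open Classical in
theorem upper (k : ℕ) (hk : 1 ≤ k) (F : ℤ[X]) (hF : F.natDegree = k + 1) (ε : ℝ) (hε : 0 < ε) :
    ∃ (δ : ℝ) (Y : ℕ), 0 < δ ∧ δ ≤ 1 / 4 ∧ 2 ≤ Y ∧ ∀ K : ℕ, ∃ X0 : ℕ, ∀ x : ℕ, X0 ≤ x →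
    ∀ (lam : ℝ) (y : ℕ), 0 ≤ lam → lam ≤ K * Real.log (Real.log x) → Y ≤ y → lam ^ (1 - δ) ≤ y →
      (y : ℝ) ≤ K * Real.log (Real.log x) →
    ∀ (S : Finset ℤ) (u v c : ℤ) (T : ℕ), S ⊆ Ioc u v → rt k x ≤ #S * Real.log x ^ K →
      (v : ℝ) - u ≤ #S * Real.exp lam → (∀ q ∈ Ioc u v, 8 * |F.eval q| ≤ x) →
      (x : ℤ) ≤ 3 * c → 2 * c ≤ x → 8 * (T * prim y) ≤ x →
      (x : ℝ) ≤ T * prim y * Real.log x ^ K →
      (∀ a ∈ S, ∀ p : ℕ, p.Prime → p ≤ y → ¬ (p : ℤ) ∣ F.eval a + c) →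
      (((Icc 1 T).filter (fun t : ℕ =>
        ¬ |(cnt F S (c + prim y * (t : ℤ)) : ℝ) - #S / (Vz y * Real.log x)| ≤
          ε * (#S / (Vz y * Real.log x)))).card : ℝ) ≤ ε * T := by
  obtain ⟨e, he⟩ : ∃ e : ℝ, e = min ε 1 / 20 := ⟨_, rfl⟩
  have he0 : 0 < e := by
    rw [he]
    have := lt_min hε one_pos
    positivity
  have he1 : e ≤ 1 / 20 := by
    rw [he]
    have := min_le_right ε 1
    linarith
  have heε : 5 * e ≤ ε := by
    rw [he]
    have := min_le_left ε 1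
    linarith
  obtain ⟨A, hA1, hone⟩ := one k hk F hF e he0
  obtain ⟨δ, Y, hδ0, hδ1, hY2, hσ⟩ := sigma_small A (e ^ 2) (by positivity) (by nlinarith)
  refine ⟨δ, Y, hδ0, hδ1, hY2, fun K => ?_⟩
  obtain ⟨K', hK'⟩ : ∃ K', K' = K + A * K + 2 * A + 1 := ⟨_, rfl⟩
  obtain ⟨X1, hone⟩ := hone K'
  have a1 := evt_log_pow (3 * K' + 3) (1 : ℝ) one_pos
  have a2 := evt_log_ge (max (Real.exp 1) (12 * (K' + 1)))
  obtain ⟨X2, h0⟩ := eventually_atTop.1 (a1.and a2)
  refine ⟨max X1 X2, fun x hx lam y hlam0 hlamK hyY hly hyK S u v c T hS hxS hvl hFx hc1 hc2 hTx hxT hcop => ?_⟩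
  have hx1 : X1 ≤ x := (le_max_left _ _).trans hx
  obtain ⟨g1, g2⟩ := h0 x ((le_max_right _ _).trans hx)
  replace hone := hone x hx1
  rw [Real.rpow_one] at g1
  obtain ⟨L, hL⟩ : ∃ L, L = Real.log x := ⟨_, rfl⟩
  rw [← hL] at g1 g2 hone hxS hxT hlamK hyK ⊢
  have g21 := (le_max_left _ _).trans g2
  have g22 := (le_max_right _ _).trans g2
  have hexp := Real.exp_pos 1
  have hL0 : 0 < L := by linarith
  obtain ⟨ℓ, hℓ⟩ : ∃ ℓ, ℓ = Real.log L := ⟨_, rfl⟩
  rw [← hℓ] at hone hlamK hyK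
  have hℓ1 : 1 ≤ ℓ := by
    rw [hℓ, Real.le_log_iff_exp_le hL0]
    exact g21
  have hLe : L = Real.exp ℓ := by rw [hℓ, Real.exp_log hL0]
  have hL2 : 2 ≤ L := by
    have := Real.exp_one_gt_d9
    linarith
  have hL1 : 1 ≤ L := by linarith
  have hK0 : (0 : ℝ) ≤ K := Nat.cast_nonneg _
  have hA0 : (0 : ℝ) ≤ A := Nat.cast_nonneg _
  have hA1r : (1 : ℝ) ≤ A := by exact_mod_cast hA1
  have hK'0 : (0 : ℝ) ≤ K' := Nat.cast_nonneg _
  have hK'r : (K' : ℝ) = K + A * K + 2 * A + 1 := by rw [hK']; push_cast; ring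
  -- the second level
  obtain ⟨z, hz⟩ : ∃ z : ℕ, z = max y ⌈(A : ℝ) * (2 + lam)⌉₊ := ⟨_, rfl⟩
  have hyz : y ≤ z := by rw [hz]; exact le_max_left _ _
  have hzA : A * (1 + (lam + 1)) ≤ (z : ℝ) := by
    have h1 : (A : ℝ) * (2 + lam) ≤ ⌈(A : ℝ) * (2 + lam)⌉₊ := Nat.le_ceil _
    have h2 : ((⌈(A : ℝ) * (2 + lam)⌉₊ : ℕ) : ℝ) ≤ z := by
      rw [hz]
      exact_mod_cast le_max_right _ _
    linarith
  have hceil : ((⌈(A : ℝ) * (2 + lam)⌉₊ : ℕ) : ℝ) ≤ A * (2 + lam) + 1 :=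
    (Nat.ceil_lt_add_one (by positivity)).le
  have hz3 : z = y ∨ (z : ℝ) ≤ (A + 1) * (2 + lam) := by
    rcases le_total y ⌈(A : ℝ) * (2 + lam)⌉₊ with h1 | h1
    · right
      rw [hz, max_eq_right h1]
      linarith
    · left
      rw [hz, max_eq_left h1]
  have hzK : (z : ℝ) ≤ K' * ℓ := by
    have b1 : 0 ≤ (K : ℝ) * ℓ := by positivity
    have b2 : (A : ℝ) * lam ≤ A * (K * ℓ) := mul_le_mul_of_nonneg_left hlamK hA0
    have b3 : 0 ≤ (A : ℝ) * (K * ℓ) := by positivity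
    have b4 : (A : ℝ) * 1 ≤ A * ℓ := mul_le_mul_of_nonneg_left hℓ1 hA0
    rw [hK'r]
    rcases le_total y ⌈(A : ℝ) * (2 + lam)⌉₊ with h1 | h1
    · rw [hz, max_eq_right h1]
      linarith
    · rw [hz, max_eq_left h1]
      linarith
  have hσ1 := hσ lam y z hlam0 hyY hly hyz hz3
  -- the moduli
  obtain ⟨P, hP⟩ : ∃ P : ℕ, P = prim y := ⟨_, rfl⟩
  obtain ⟨Q, hQ⟩ : ∃ Q : ℕ, Q = quo y z := ⟨_, rfl⟩
  have hPQ : prim z = P * Q := by rw [hP, hQ]; exact prim_quo y z hyz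
  rw [← hP] at hTx hxT ⊢
  have hQ0 : 0 < Q := by rw [hQ]; exact quo_pos y z
  have hP0 : 0 < P := by rw [hP]; exact prim_pos y
  have hPQL : ((P * Q : ℕ) : ℝ) ≤ L ^ (2 * K') := by
    rw [← hPQ]
    exact PL_aux K' z (prim z) ℓ L (by linarith) hLe hzK (prim_le z)
  have hKK' : K ≤ K' := by
    rw [hK']
    have := Nat.zero_le (A * K)
    omega
  -- numbers of the size of a power of L are small
  have hx12 : 12 * (P * Q) ≤ x := by
    have h1 : (12 : ℝ) * ((P * Q : ℕ) : ℝ) ≤ x := by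
      calc (12 : ℝ) * ((P * Q : ℕ) : ℝ) ≤ L * L ^ (2 * K') := mul_le_mul (by linarith) hPQL (Nat.cast_nonneg _) hL0.le
        _ = L ^ (2 * K' + 1) := by ring
        _ ≤ L ^ (3 * K' + 3) := pow_le_pow_right₀ hL1 (by omega)
        _ ≤ x := g1
    exact_mod_cast h1
  have hQT : Q ≤ T := by
    have h1 : ((P * Q : ℕ) : ℝ) * L ^ K ≤ x := by
      calc ((P * Q : ℕ) : ℝ) * L ^ K ≤ L ^ (2 * K') * L ^ K := mul_le_mul_of_nonneg_right hPQL (by positivity)
        _ = L ^ (2 * K' + K) := by ring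
        _ ≤ L ^ (3 * K' + 3) := pow_le_pow_right₀ hL1 (by omega)
        _ ≤ x := g1
    have h2 : ((P * Q : ℕ) : ℝ) * L ^ K ≤ (T * P) * L ^ K := h1.trans hxT
    have h3 := le_of_mul_le_mul_right h2 (pow_pos hL0 K)
    have h4 : P * Q ≤ T * P := by exact_mod_cast h3
    rw [mul_comm T P] at h4
    exact Nat.le_of_mul_le_mul_left h4 hP0
  have hz8 : 12 * (z : ℤ) ≤ x := by
    have h1 : (12 : ℝ) * z ≤ x := by
      calc (12 : ℝ) * z ≤ 12 * (K' * ℓ) := by linarith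
        _ ≤ (12 * (K' + 1)) * L := by
            have : ℓ ≤ L := by
              have := Real.log_le_sub_one_of_pos hL0
              linarith
            have b1 : (K' : ℝ) * ℓ ≤ K' * L := mul_le_mul_of_nonneg_left this hK'0
            linarith
        _ ≤ L * L := mul_le_mul_of_nonneg_right g22 hL0.le
        _ = L ^ 2 := by ring
        _ ≤ L ^ (3 * K' + 3) := pow_le_pow_right₀ hL1 (by omega)
        _ ≤ x := g1
    exact_mod_cast h1
  -- the set
  rcases Nat.eq_zero_or_pos (#S) with hS0 | hS0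
  · -- the empty set
    have h1 : (((Icc 1 T).filter (fun t : ℕ =>
        ¬ |(cnt F S (c + P * (t : ℤ)) : ℝ) - #S / (Vz y * L)| ≤ ε * (#S / (Vz y * L)))).card : ℝ) = 0 := by
      rw [Nat.cast_eq_zero, card_eq_zero, filter_eq_empty_iff]
      intro t _
      have h2 : cnt F S (c + P * (t : ℤ)) = 0 := by
        have : cnt F S (c + P * (t : ℤ)) ≤ #S := card_filter_le _ _
        omega
      rw [h2, hS0]
      simp
    rw [h1]
    positivity
  have hSr : (0 : ℝ) < #S := by exact_mod_cast hS0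
  obtain ⟨T₁, hT₁⟩ : ∃ T₁, T₁ = (T + Q - 1) / Q := ⟨_, rfl⟩
  have hT₁a : T₁ * Q ≤ T + Q := by
    have h1 : T₁ * Q ≤ T + Q - 1 := by rw [hT₁]; exact Nat.div_mul_le_self _ _
    omega
  have hT₁b : T ≤ T₁ * Q := by
    have h3 : T + Q - 1 < (T₁ + 1) * Q := by
      rw [hT₁]
      exact (Nat.div_lt_iff_lt_mul hQ0).1 (Nat.lt_succ_self _)
    have : (T₁ + 1) * Q = T₁ * Q + Q := by ring
    omega
  have hdivP : ∀ p : ℕ, p.Prime → p ≤ y → (p : ℤ) ∣ (P : ℤ) := fun p hp hpy => by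
    rw [hP, Int.natCast_dvd_natCast]
    exact prim_dvd hp hpy
  have hndP : ∀ p : ℕ, p.Prime → y < p → ¬ (p : ℤ) ∣ (P : ℤ) := by
    intro p hp hpz hd
    rw [hP, Int.natCast_dvd_natCast] at hd
    exact prim_not_dvd hp hpz hd
  -- the classes
  have hfew := few_classes F S y z c P hndP e he0 hσ1 hS0
  rw [← hQ] at hfew
  have hclass : ∀ ρ < Q, (1 - e) * (#S : ℝ) ≤ #(fil F S y z (c - P * ρ)) →
      (((Icc 1 ((T + Q - 1) / Q)).filter (fun s : ℕ =>
        ¬ |(cnt F (fil F S y z (c - P * ρ)) ((c - P * ρ) + prim z * (s : ℤ)) : ℝ) -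
          #(fil F S y z (c - P * ρ)) / (Vz z * L)| ≤
          e * (#(fil F S y z (c - P * ρ)) / (Vz z * L)))).card : ℝ) ≤ e * ((T + Q - 1) / Q : ℕ) := by
    intro ρ hρ hgood
    rw [← hT₁]
    have hPρ : (P : ℤ) * ρ ≤ P * Q := mul_le_mul_of_nonneg_left (by exact_mod_cast hρ.le) (by positivity)
    have hPρ0 : (0 : ℤ) ≤ (P : ℤ) * ρ := by positivity
    have hx12' : 12 * ((P : ℤ) * Q) ≤ x := by exact_mod_cast hx12
    have hhalf : (#S : ℝ) ≤ 2 * #(fil F S y z (c - P * ρ)) := by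
      have : (1 / 2 : ℝ) * #S ≤ (1 - e) * #S := mul_le_mul_of_nonneg_right (by linarith) hSr.le
      linarith
    apply hone (lam + 1) z (by linarith) hzA hzK _ u v ((filter_subset _ _).trans hS)
    · calc rt k x ≤ #S * L ^ K := hxS
        _ ≤ (2 * #(fil F S y z (c - P * ρ))) * L ^ K := mul_le_mul_of_nonneg_right hhalf (by positivity)
        _ ≤ (L * #(fil F S y z (c - P * ρ))) * L ^ K := by
            apply mul_le_mul_of_nonneg_right _ (by positivity)
            exact mul_le_mul_of_nonneg_right hL2 (Nat.cast_nonneg _)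
        _ = #(fil F S y z (c - P * ρ)) * L ^ (K + 1) := by ring
        _ ≤ #(fil F S y z (c - P * ρ)) * L ^ K' := by
            apply mul_le_mul_of_nonneg_left _ (Nat.cast_nonneg _)
            apply pow_le_pow_right₀ hL1
            rw [hK']
            have := Nat.zero_le (A * K)
            omega
    · calc (v : ℝ) - u ≤ #S * Real.exp lam := hvl
        _ ≤ (2 * #(fil F S y z (c - P * ρ))) * Real.exp lam := mul_le_mul_of_nonneg_right hhalf (Real.exp_pos _).le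
        _ = #(fil F S y z (c - P * ρ)) * (2 * Real.exp lam) := by ring
        _ ≤ #(fil F S y z (c - P * ρ)) * Real.exp (lam + 1) := by
            apply mul_le_mul_of_nonneg_left _ (Nat.cast_nonneg _)
            rw [Real.exp_add, mul_comm]
            apply mul_le_mul_of_nonneg_left _ (Real.exp_pos _).le
            have := Real.exp_one_gt_d9
            linarith
    · exact hFx
    · linarith
    · linarith
    · rw [hPQ]
      have h1 : T₁ * (P * Q) = (T₁ * Q) * P := by ring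
      have h2 : (T₁ * Q) * P ≤ (T + Q) * P := Nat.mul_le_mul_right _ hT₁a
      have h3 : (T + Q) * P = T * P + P * Q := by ring
      omega
    · rw [hPQ]
      have h1 : (T : ℝ) * P ≤ T₁ * ((P * Q : ℕ) : ℝ) := by
        have h2 : T * P ≤ T₁ * (P * Q) := by
          have h3 : T₁ * (P * Q) = (T₁ * Q) * P := by ring
          rw [h3]
          exact Nat.mul_le_mul_right _ hT₁b
        exact_mod_cast h2
      refine hxT.trans ?_
      apply mul_le_mul h1 (pow_le_pow_right₀ hL1 hKK') (by positivity) (by positivity)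
    · intro a ha p hp hpz hd
      obtain ⟨ha1, ha2⟩ := mem_filter.1 ha
      rcases le_or_gt p y with h1 | h1
      · apply hcop a ha1 p hp h1
        have h2 : F.eval a + c = (F.eval a + (c - P * ρ)) + P * ρ := by ring
        rw [h2]
        exact dvd_add hd ((hdivP p hp h1).mul_right _)
      · exact ha2 p (mem_pq.2 ⟨h1, hpz, hp⟩) hd
  have hglue := glue T Q hQ0 hQT e he0
    (fun t : ℕ => ¬ |(cnt F S (c + P * (t : ℤ)) : ℝ) - #S / (Vz y * L)| ≤ ε * (#S / (Vz y * L)))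
    (fun ρ : ℕ => (1 - e) * (#S : ℝ) ≤ #(fil F S y z (c - P * ρ)))
    (fun (ρ s : ℕ) => ¬ |(cnt F (fil F S y z (c - P * ρ)) ((c - P * ρ) + prim z * (s : ℤ)) : ℝ) -
          #(fil F S y z (c - P * ρ)) / (Vz z * L)| ≤ e * (#(fil F S y z (c - P * ρ)) / (Vz z * L)))
    (by convert hfew) (by
      intro ρ hρ hG
      convert hclass ρ hρ hG) (by
      intro t ht ρ hρ s hs hts hbad
      by_contra hcon
      push Not at hcon
      obtain ⟨hG, hs2⟩ := hcon
      apply hbad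
      have hb : c + P * (t : ℤ) = (c - P * ρ) + prim z * (s : ℤ) := by
        rw [hPQ]
        have h1 : (t : ℤ) + ρ = Q * s := by exact_mod_cast hts
        have h2 : (t : ℤ) = Q * s - ρ := by linarith
        rw [h2]
        push_cast
        ring
      have hPρ : (P : ℤ) * ρ ≤ P * Q := mul_le_mul_of_nonneg_left (by exact_mod_cast hρ.le) (by positivity)
      have hx12' : 12 * ((P : ℤ) * Q) ≤ x := by exact_mod_cast hx12
      have hcnt : cnt F S (c + P * (t : ℤ)) = cnt F (fil F S y z (c - P * ρ)) ((c - P * ρ) + prim z * (s : ℤ)) := by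
        rw [hb]
        apply cnt_fil
        · intro p hp
          obtain ⟨_, hp2, hp3⟩ := mem_pq.1 hp
          rw [Int.natCast_dvd_natCast]
          exact prim_dvd hp3 hp2
        · intro a ha
          have h1 := hFx a (hS ha)
          have h2 := abs_le.1 (show |F.eval a| ≤ |F.eval a| from le_rfl)
          have h3 : (0 : ℤ) ≤ (prim z : ℤ) * s := by positivity
          linarith [h2.1]
      rw [hcnt]
      have hVs := Vz_split y z hyz
      have hV1 := V1_bounds y z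
      have hD : Vz z * L = (Vz y * L) * V1 y z := by rw [hVs]; ring
      rw [hD] at hs2
      have hσe : ∑ p ∈ pq y z, 1 / (p : ℝ) ≤ e := by
        refine hσ1.trans ?_
        nlinarith
      exact fin_aux _ #S #(fil F S y z (c - P * ρ)) (Vz y * L) (V1 y z) e ε hSr.le (mul_pos (Vz_pos y) hL0) he0 he1 heε
        hG (by exact_mod_cast card_filter_le _ _)
        ((exp_small _ _ hσe).trans hV1.2) (V1_le_one y z) hs2)
  have hfin : 4 * e * (T : ℝ) ≤ ε * T := mul_le_mul_of_nonneg_right (by linarith) (Nat.cast_nonneg _)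
  refine le_trans ?_ (hglue.trans hfin)
  apply le_of_eq
  congr

end Pool.Agent.Q156.TL
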