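import Pool.Agent.Q156.TL.L3
import Pool.Agent.Q156.TL.L4

/-!
The threshold is exact: below it the asymptotic formula fails for a positive proportion of the
shifts.
-/

set_option autoImplicit false

namespace Pool.Agent.Q156.TL

open Finset Filter Topology Polynomial
open Pool.Agent.TH204.WR (evt_log_ge evt_log_pow)
open Pool.Agent.Q156.SW
open Pool.Agent.Q156.MW (loglog_small)

lemma eval_congr (F : ℤ[X]) (p a b : ℤ) (h : p ∣ a - b) (c : ℤ) (hc : p ∣ F.eval b + c) : p ∣ F.eval a + c := by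
  have h1 : a - b ∣ F.eval a - F.eval b := Polynomial.sub_dvd_eval_sub a b F
  have h2 : F.eval a + c = (F.eval a - F.eval b) + (F.eval b + c) := by ring
  rw [h2]
  exact dvd_add (h.trans h1) hc

/-- an argument without obstruction at the primes up to `y` -/
lemma exists_free (F : ℤ[X]) (c : ℤ) (y : ℕ) (h : ∀ p : ℕ, p.Prime → p ≤ y → ∃ a : ℤ, ¬ (p : ℤ) ∣ F.eval a + c) :
    ∃ r : ℤ, ∀ p : ℕ, p.Prime → p ≤ y → ¬ (p : ℤ) ∣ F.eval r + c := by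
  classical
  have h1 : ∀ p : ℕ, ∃ a : ℕ, p.Prime → p ≤ y → ¬ (p : ℤ) ∣ F.eval (a : ℤ) + c := by
    intro p
    by_cases hp : p.Prime ∧ p ≤ y
    · obtain ⟨a, ha⟩ := h p hp.1 hp.2
      have hp0 : (0 : ℤ) < p := by exact_mod_cast hp.1.pos
      refine ⟨(a % p).toNat, fun _ _ hd => ha ?_⟩
      have h2 : (((a % p).toNat : ℕ) : ℤ) = a % p := Int.toNat_of_nonneg (Int.emod_nonneg _ hp0.ne')
      rw [h2] at hd
      refine eval_congr F p a (a % p) ?_ c hd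
      exact Int.dvd_self_sub_emod
    · exact ⟨0, fun h1 h2 => absurd ⟨h1, h2⟩ hp⟩
  choose f hf using h1
  obtain ⟨r, hr⟩ := Nat.chineseRemainderOfFinset f id ((Icc 1 y).filter Nat.Prime)
    (fun p hp => (mem_filter.1 hp).2.ne_zero) (by
      intro p hp q hq hpq
      exact (Nat.coprime_primes (mem_filter.1 (mem_coe.1 hp)).2 (mem_filter.1 (mem_coe.1 hq)).2).2 hpq)
  refine ⟨r, fun p hp hpy hd => ?_⟩
  have h2 := hr p (mem_filter.2 ⟨mem_Icc.2 ⟨hp.one_lt.le, hpy⟩, hp⟩)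
  apply hf p hp hpy
  refine eval_congr F p (f p) r ?_ c hd
  have h3 : (r : ℤ) ≡ (f p : ℤ) [ZMOD (p : ℤ)] := by exact_mod_cast h2
  exact h3.dvd

/-- a residue class in an interval -/
lemma class_size (v r : ℤ) (M : ℕ) (hM : 0 < M) (hv : 0 ≤ v) :
    (v : ℝ) / M - 1 ≤ (((Ioc 0 v).filter (fun a : ℤ => (M : ℤ) ∣ a - r)).card : ℝ) := by
  classical
  have h1 := Int.Ioc_filter_modEq_card 0 v (r := (M : ℤ)) (by exact_mod_cast hM) r
  have h2 : ((Ioc 0 v).filter (fun a : ℤ => (M : ℤ) ∣ a - r)).card = ((Ioc 0 v).filter (fun a : ℤ => a ≡ r [ZMOD M])).card := by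
    congr 1
    apply filter_congr
    intro a _
    rw [Int.modEq_comm, Int.modEq_iff_dvd]
  rw [h2]
  have h3 : (v : ℝ) / M - 1 ≤ ((((Ioc 0 v).filter (fun a : ℤ => a ≡ r [ZMOD M])).card : ℤ) : ℝ) := by
    rw [h1]
    have hMr : (0 : ℝ) < M := by exact_mod_cast hM
    obtain ⟨s, hs⟩ : ∃ s : ℤ, s = ⌊((v - r : ℤ) : ℚ) / ((M : ℤ) : ℚ)⌋ - ⌊((0 - r : ℤ) : ℚ) / ((M : ℤ) : ℚ)⌋ := ⟨_, rfl⟩
    have h4 : (v : ℚ) / M - 1 ≤ s := by
      have h5 : ((v - r : ℤ) : ℚ) / ((M : ℤ) : ℚ) < ⌊((v - r : ℤ) : ℚ) / ((M : ℤ) : ℚ)⌋ + 1 := Int.lt_floor_add_one _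
      have h6 : (⌊((0 - r : ℤ) : ℚ) / ((M : ℤ) : ℚ)⌋ : ℚ) ≤ ((0 - r : ℤ) : ℚ) / ((M : ℤ) : ℚ) := Int.floor_le _
      have h7 : ((v - r : ℤ) : ℚ) / ((M : ℤ) : ℚ) - ((0 - r : ℤ) : ℚ) / ((M : ℤ) : ℚ) = v / M := by
        push_cast
        ring
      rw [hs]
      push_cast at h5 h6 h7 ⊢
      linarith
    have h5 : (v : ℝ) / M - 1 ≤ s := by
      have := (Rat.cast_le (K := ℝ)).2 h4
      push_cast at this
      exact this
    refine h5.trans ?_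
    have h6 : s ≤ max (⌊((v - r : ℤ) : ℚ) / ((M : ℤ) : ℚ)⌋ - ⌊((0 - r : ℤ) : ℚ) / ((M : ℤ) : ℚ)⌋) 0 := by
      rw [← hs]
      exact le_max_left _ _
    have h7 : (s : ℝ) ≤ ((max (⌊((v - r : ℤ) : ℚ) / ((M : ℤ) : ℚ)⌋ - ⌊((0 - r : ℤ) : ℚ) / ((M : ℤ) : ℚ)⌋) 0 : ℤ) : ℝ) := by
      exact_mod_cast h6
    refine h7.trans (le_of_eq ?_)
    congr 1
    push_cast
    rfl
  exact_mod_cast h3

end Pool.Agent.Q156.TL
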