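import Pool.Agent.Q156.TL.L8

/-!
The threshold is exact: below it the asymptotic formula fails for a positive proportion of the
shifts.
-/

set_option autoImplicit false

namespace Pool.Agent.Q156.TL

open Finset Filter Topology Polynomial
open Pool.Agent.TH204.WR (evt_log_ge evt_log_pow)
open Pool.Agent.Q156.SW
open Pool.Agent.Q156.MW (loglog_small)

/-- the density factor between `lam^(1-δ)` and `lam/2` -/
lemma V1_lower (δ : ℝ) (hδ : 0 < δ) (hδ1 : δ < 1) : ∃ Λ : ℝ, 6 ≤ Λ ∧ ∀ (lam : ℝ) (y : ℕ), Λ ≤ lam →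
    (y : ℝ) ≤ lam ^ (1 - δ) → y ≤ ⌊lam / 2⌋₊ ∧ V1 y ⌊lam / 2⌋₊ ≤ Real.exp (-(δ / 2)) := by
  obtain ⟨C, hC0, hC⟩ := sum_inv
  refine ⟨max 6 (Real.exp ((2 / δ) * (C + 2 * Real.log 3))), le_max_left _ _, fun lam y hlam hy => ?_⟩
  have h6 : 6 ≤ lam := (le_max_left _ _).trans hlam
  have hE := (le_max_right _ _).trans hlam
  have hlog : (2 / δ) * (C + 2 * Real.log 3) ≤ Real.log lam := by
    rw [Real.le_log_iff_exp_le (by linarith)]
    exact hE
  have hlog' : C + 2 * Real.log 3 ≤ δ / 2 * Real.log lam := by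
    have h1 := mul_le_mul_of_nonneg_left hlog (show 0 ≤ δ / 2 by positivity)
    have h2 : δ / 2 * (2 / δ * (C + 2 * Real.log 3)) = C + 2 * Real.log 3 := by
      field_simp
    linarith
  have hl3 : 0 < Real.log 3 := Real.log_pos (by norm_num)
  have hl2 : Real.log 2 ≤ Real.log 3 := Real.log_le_log (by norm_num) (by norm_num)
  have hllam : 0 < Real.log lam := Real.log_pos (by linarith)
  obtain ⟨z, hz⟩ : ∃ z : ℕ, z = ⌊lam / 2⌋₊ := ⟨_, rfl⟩
  rw [← hz]
  have hz1 : lam / 3 ≤ z := by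
    have := Nat.lt_floor_add_one (lam / 2)
    rw [← hz] at this
    linarith
  have hz2 : 2 ≤ z := by
    have : (2 : ℝ) ≤ z := by linarith
    exact_mod_cast this
  have hzlog : Real.log lam - Real.log 3 ≤ Real.log z := by
    rw [← Real.log_div (by linarith) (by norm_num)]
    exact Real.log_le_log (by linarith) hz1
  have hzlog0 : 0 < Real.log z := Real.log_pos (by exact_mod_cast hz2)
  have hylog : (y : ℝ) ≤ lam / 3 := by
    refine hy.trans ?_
    have h1 : lam ^ (1 - δ) = Real.exp (Real.log lam * (1 - δ)) := Real.rpow_def_of_pos (by linarith) _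
    have h2 : lam / 3 = Real.exp (Real.log lam - Real.log 3) := by
      rw [Real.exp_sub, Real.exp_log (by linarith), Real.exp_log (by norm_num)]
    rw [h1, h2]
    apply Real.exp_le_exp.2
    nlinarith
  have hyz : y ≤ z := by
    have : (y : ℝ) ≤ z := hylog.trans hz1
    exact_mod_cast this
  refine ⟨hyz, ?_⟩
  obtain ⟨w, hw⟩ : ∃ w : ℕ, w = max y 2 := ⟨_, rfl⟩
  have hw2 : 2 ≤ w := by rw [hw]; exact le_max_right _ _
  have hwz : w ≤ z := by rw [hw]; exact max_le hyz hz2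
  have hwlog : Real.log w ≤ (1 - δ) * Real.log lam + Real.log 2 := by
    have h0 : 0 ≤ (1 - δ) * Real.log lam := mul_nonneg (by linarith) hllam.le
    rcases le_total y 2 with h | h
    · rw [hw, max_eq_right h]
      push_cast
      linarith
    · rw [hw, max_eq_left h]
      have h2 : (2 : ℝ) ≤ y := by exact_mod_cast h
      have h1 : Real.log y ≤ Real.log (lam ^ (1 - δ)) := Real.log_le_log (by linarith) hy
      rw [Real.log_rpow (by linarith)] at h1
      have := Real.log_nonneg (show (1 : ℝ) ≤ 2 by norm_num)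
      linarith
  have h1 := (hC w z hw2 hwz).2
  have hsub : pq w z ⊆ pq y z := by
    intro p hp
    obtain ⟨a, b, c⟩ := mem_pq.1 hp
    exact mem_pq.2 ⟨lt_of_le_of_lt (by rw [hw]; exact le_max_left _ _) a, b, c⟩
  have h2 : ∑ p ∈ pq w z, 1 / (p : ℝ) ≤ ∑ p ∈ pq y z, 1 / (p : ℝ) :=
    sum_le_sum_of_subset_of_nonneg hsub fun p _ _ => by positivity
  have h3 : δ / 2 * Real.log z ≤ (∑ p ∈ pq w z, 1 / (p : ℝ)) * Real.log z := by
    refine le_trans ?_ h1
    have h4 : (1 - δ / 2) * (Real.log lam - Real.log 3) ≤ (1 - δ / 2) * Real.log z :=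
      mul_le_mul_of_nonneg_left hzlog (by linarith)
    have h5 : 0 ≤ δ / 2 * Real.log 3 := by positivity
    nlinarith
  have h4 : δ / 2 ≤ ∑ p ∈ pq w z, 1 / (p : ℝ) := le_of_mul_le_mul_right h3 hzlog0
  refine (V1_bounds y z).1.trans (Real.exp_le_exp.2 ?_)
  linarith

lemma Yf_zero (z₁ z : ℕ) : Yf z₁ z 0 = (V1 z₁ z)⁻¹ := by
  classical
  unfold Yf V1
  rw [← prod_inv_distrib]
  apply prod_congr _ fun _ _ => rfl
  apply filter_true_of_mem
  intro p _
  exact dvd_zero _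

open Classical in
theorem lower (δ : ℝ) (hδ : 0 < δ) (hδ1 : δ < 1) : ∃ (η Λ : ℝ) (X0 : ℕ), 0 < η ∧ 0 < Λ ∧ ∀ x : ℕ, X0 ≤ x →
    ∀ (F : ℤ[X]) (lam : ℝ) (y : ℕ), Λ ≤ lam → lam ≤ Real.log (Real.log x) → (y : ℝ) ≤ lam ^ (1 - δ) →
    ∀ (v c : ℤ) (T : ℕ), 2 * Real.log x ≤ v → (∀ q ∈ Ioc 0 v, 8 * |F.eval q| ≤ x) → (x : ℤ) ≤ 3 * c →
      Real.log x ≤ T → (∀ p : ℕ, p.Prime → p ≤ y → ∃ a : ℤ, ¬ (p : ℤ) ∣ F.eval a + c) →
      ∃ S : Finset ℤ, S ⊆ Ioc 0 v ∧ (v : ℝ) ≤ #S * Real.exp lam ∧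
        (∀ a ∈ S, ∀ p : ℕ, p.Prime → p ≤ y → ¬ (p : ℤ) ∣ F.eval a + c) ∧
        η * T ≤ (((Icc 1 T).filter (fun t : ℕ => cnt F S (c + prim y * (t : ℤ)) = 0)).card : ℝ) := by
  obtain ⟨η, hη⟩ : ∃ η : ℝ, η = (1 - Real.exp (-(δ / 2))) / 4 := ⟨_, rfl⟩
  have hη0 : 0 < η := by
    have h1 : Real.exp (-(δ / 2)) < 1 := by
      rw [Real.exp_lt_one_iff]
      linarith
    rw [hη]
    linarith
  obtain ⟨Λ₀, hΛ6, hV⟩ := V1_lower δ hδ hδ1
  obtain ⟨K, z0, hK1, hmom⟩ := moments (2 * η) (by linarith)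
  obtain ⟨Λ, hΛ⟩ : ∃ Λ : ℝ, Λ = max Λ₀ (3 * z0) := ⟨_, rfl⟩
  have hΛ1 : Λ₀ ≤ Λ := by rw [hΛ]; exact le_max_left _ _
  have hΛ2 : 3 * (z0 : ℝ) ≤ Λ := by rw [hΛ]; exact le_max_right _ _
  have a1 := loglog_small K η hη0
  have a2 := evt_log_ge (Real.exp 1)
  have a3 := evt_log_pow 2 (1 : ℝ) one_pos
  obtain ⟨X0, h0⟩ := eventually_atTop.1 (a1.and (a2.and a3))
  refine ⟨η, Λ, X0, hη0, by linarith, fun x hx F lam y hlam hlx hy v c T hv hFv hxc hT hfree => ?_⟩
  obtain ⟨g1, g2, g3⟩ := h0 x hx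
  rw [Real.rpow_one] at g3
  obtain ⟨L, hL⟩ : ∃ L, L = Real.log x := ⟨_, rfl⟩
  rw [← hL] at g1 g2 g3 hlx hv hT
  have hexp := Real.exp_one_gt_d9
  have hL2 : 2.7 ≤ L := by linarith
  obtain ⟨ℓ, hℓ⟩ : ∃ ℓ, ℓ = Real.log L := ⟨_, rfl⟩
  rw [← hℓ] at g1 hlx
  have hLe : L = Real.exp ℓ := by rw [hℓ, Real.exp_log (by linarith)]
  have hℓL : ℓ ≤ L := by
    have := Real.add_one_le_exp ℓ
    linarith
  obtain ⟨z, hz⟩ : ∃ z : ℕ, z = ⌊lam / 2⌋₊ := ⟨_, rfl⟩
  obtain ⟨hyz, hVz⟩ := hV lam y (hΛ1.trans hlam) hy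
  rw [← hz] at hyz hVz
  have hlam6 : 6 ≤ lam := by linarith
  have hzle : (z : ℝ) ≤ lam / 2 := by rw [hz]; exact Nat.floor_le (by linarith)
  have hzge : lam / 2 - 1 ≤ z := by
    have := Nat.lt_floor_add_one (lam / 2)
    rw [← hz] at this
    linarith
  have hz0 : z0 ≤ z := by
    have : (z0 : ℝ) ≤ z := by linarith
    exact_mod_cast this
  obtain ⟨r, hr⟩ := exists_free F c y hfree
  obtain ⟨M, hM⟩ : ∃ M : ℕ, M = prim z := ⟨_, rfl⟩
  have hM0 : 0 < M := by rw [hM]; exact prim_pos z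
  have hMr : (0 : ℝ) < M := by exact_mod_cast hM0
  have hMle : 2 * (M : ℝ) ≤ Real.exp lam := by
    have h1 : (M : ℝ) ≤ 4 ^ z := by rw [hM]; exact_mod_cast prim_le z
    have h2 : (4 : ℝ) ^ z ≤ Real.exp (lam * Real.log 2) := by
      have h3 : (4 : ℝ) ^ z = Real.exp (z * (2 * Real.log 2)) := by
        rw [Real.exp_nat_mul]
        congr 1
        rw [show (2 : ℝ) * Real.log 2 = ((2 : ℕ) : ℝ) * Real.log 2 by norm_num, Real.exp_nat_mul,
          Real.exp_log (by norm_num)]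
        norm_num
      rw [h3]
      apply Real.exp_le_exp.2
      have h5 : 0 < Real.log 2 := Real.log_pos (by norm_num)
      nlinarith
    have h4 : 2 * Real.exp (lam * Real.log 2) ≤ Real.exp lam := by
      have h5 : (2 : ℝ) ≤ Real.exp (lam * (1 - Real.log 2)) := by
        have h6 := Real.add_one_le_exp (lam * (1 - Real.log 2))
        have h7 := Real.log_two_lt_d9
        nlinarith
      calc 2 * Real.exp (lam * Real.log 2) ≤ Real.exp (lam * (1 - Real.log 2)) * Real.exp (lam * Real.log 2) :=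
            mul_le_mul_of_nonneg_right h5 (Real.exp_pos _).le
        _ = Real.exp lam := by
            rw [← Real.exp_add]
            congr 1
            ring
    linarith
  have hML : 2 * (M : ℝ) ≤ L := by
    rw [hLe]
    exact hMle.trans (Real.exp_le_exp.2 hlx)
  obtain ⟨S, hS⟩ : ∃ S : Finset ℤ, S = (Ioc 0 v).filter (fun a : ℤ => (M : ℤ) ∣ a - r) := ⟨_, rfl⟩
  have hv0 : (0 : ℝ) < v := by linarith
  have hv0' : (0 : ℤ) ≤ v := by exact_mod_cast hv0.le
  have hScard := class_size v r M hM0 hv0'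
  rw [← hS] at hScard
  refine ⟨S, by rw [hS]; exact filter_subset _ _, ?_, ?_, ?_⟩
  · have h1 : (v : ℝ) / (2 * M) ≤ #S := by
      have h2 : (1 : ℝ) ≤ v / (2 * M) := by
        rw [le_div_iff₀ (by positivity)]
        linarith
      have h3 : (v : ℝ) / M = v / (2 * M) + v / (2 * M) := by
        field_simp
        ring
      linarith
    have h4 : (v : ℝ) = v / (2 * M) * (2 * M) := by
      rw [div_mul_cancel₀]
      exact (mul_pos two_pos hMr).ne'
    calc (v : ℝ) = v / (2 * M) * (2 * M) := h4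
      _ ≤ #S * Real.exp lam := mul_le_mul h1 hMle (mul_pos two_pos hMr).le (Nat.cast_nonneg _)
  · intro a ha p hp hpy hd
    rw [hS, mem_filter] at ha
    have h1 : (p : ℤ) ∣ r - a := by
      have h2 : (p : ℤ) ∣ (M : ℤ) := by
        rw [hM]
        exact_mod_cast prim_dvd hp (hpy.trans hyz)
      rw [← neg_sub]
      exact (dvd_neg).2 (h2.trans ha.2)
    exact hr p hp hpy (eval_congr F p r a h1 c hd)
  · obtain ⟨c', hc'⟩ : ∃ c' : ℤ, c' = F.eval r + c := ⟨_, rfl⟩
    have h1 := (hmom y z hz0 (prim y : ℤ) (fun p hp hyp hd => prim_not_dvd hp hyp (by exact_mod_cast hd)) c' c' T).1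
    rw [sub_self, Yf_zero] at h1
    have h2 : V1 y z ^ 2 * (V1 y z)⁻¹ = V1 y z := by
      rw [sq, mul_assoc, mul_inv_cancel₀ (V1_pos y z).ne', mul_one]
    rw [h2] at h1
    have h3 : T ≤ cnt2 y z (prim y : ℤ) c' c' T +
        ((Icc 1 T).filter (fun t : ℕ => cnt F S (c + prim y * (t : ℤ)) = 0)).card := by
      unfold cnt2
      have h4 : Icc 1 T ⊆ (Icc 1 T).filter (fun t : ℕ => rg y z (c' + (prim y : ℤ) * t) ∧ rg y z (c' + (prim y : ℤ) * t)) ∪
          (Icc 1 T).filter (fun t : ℕ => cnt F S (c + prim y * (t : ℤ)) = 0) := by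
        intro t ht
        rw [mem_union, mem_filter, mem_filter]
        by_cases h5 : rg y z (c' + (prim y : ℤ) * t)
        · exact Or.inl ⟨ht, h5, h5⟩
        · right
          refine ⟨ht, ?_⟩
          unfold rg at h5
          push Not at h5
          obtain ⟨p, hp, hpd⟩ := h5
          obtain ⟨_, hpz, hpp⟩ := mem_pq.1 hp
          unfold cnt
          rw [card_eq_zero, filter_eq_empty_iff]
          intro a ha hprime
          rw [hS, mem_filter] at ha
          have h6 : (p : ℤ) ∣ a - r := by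
            have h2 : (p : ℤ) ∣ (M : ℤ) := by
              rw [hM]
              exact_mod_cast prim_dvd hpp hpz
            exact h2.trans ha.2
          have h7 : (p : ℤ) ∣ F.eval a + (c + prim y * (t : ℤ)) := by
            apply eval_congr F p a r h6
            rw [hc'] at hpd
            rw [← add_assoc]
            exact hpd
          have h8 : p = (F.eval a + (c + prim y * (t : ℤ))).natAbs :=
            (Nat.prime_dvd_prime_iff_eq hpp hprime).1 (Int.natCast_dvd.1 h7)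
          have h9 := hFv a ha.1
          have h10 : 24 * (z : ℤ) < 5 * x := by
            have h11 : 24 * (z : ℝ) < 5 * x := by nlinarith
            exact_mod_cast h11
          have h12 : (0 : ℤ) ≤ prim y * (t : ℤ) := by positivity
          have h13 := neg_abs_le (F.eval a)
          have h14 : ((F.eval a + (c + prim y * (t : ℤ))).natAbs : ℤ) = F.eval a + (c + prim y * (t : ℤ)) := by
            rw [Int.natCast_natAbs, abs_of_nonneg (by linarith)]
          have h15 : (p : ℤ) = F.eval a + (c + prim y * (t : ℤ)) := by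
            rw [← h14]
            exact_mod_cast h8
          have h16 : (p : ℤ) ≤ z := by exact_mod_cast hpz
          linarith
      have h5 := card_le_card h4
      rw [Nat.card_Icc, Nat.add_sub_cancel] at h5
      exact h5.trans (card_union_le _ _)
    have h4 : (T : ℝ) ≤ cnt2 y z (prim y : ℤ) c' c' T +
        (((Icc 1 T).filter (fun t : ℕ => cnt F S (c + prim y * (t : ℤ)) = 0)).card : ℝ) := by exact_mod_cast h3
    have hT0 : (0 : ℝ) ≤ T := Nat.cast_nonneg _
    have h5 : (1 + 2 * η) * (T * V1 y z) ≤ (1 - 2 * η) * T := by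
      have h6 : V1 y z ≤ 1 - 4 * η := by
        rw [hη]
        linarith
      have h7 : (1 + 2 * η) * V1 y z ≤ 1 - 2 * η := by nlinarith
      have h8 := mul_le_mul_of_nonneg_right h7 hT0
      linarith
    have h6 : (z : ℝ) ^ K ≤ η * T := by
      have h7 : (z : ℝ) ^ K ≤ ℓ ^ K := pow_le_pow_left₀ (Nat.cast_nonneg _) (by linarith) K
      have h8 : η * L ≤ η * T := mul_le_mul_of_nonneg_left hT hη0.le
      linarith
    linarith

end Pool.Agent.Q156.TL
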